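import Pool.Agent.Helper25.LS.Defs

/-!
# The approximation property from the vanishing of traces (project LS, MP_03bcbb_an)
-/

set_option autoImplicit false

open Filter Topology Module

noncomputable section

namespace Pool.Agent.Helper46.LS

open Pool.Agent.Helper25.LS

/-- separation of a point from a subspace -/
theorem mem_closure_of_dual {V : Type} [NormedAddCommGroup V] [NormedSpace ℂ V]
    (W : Submodule ℂ V) (z : V)
    (h : ∀ ψ : V →L[ℂ] ℂ, (∀ w ∈ W, ψ w = 0) → ψ z = 0) : z ∈ closure (W : Set V) := by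
  by_contra hz
  have hc : IsClosed (W.topologicalClosure : Set V) := W.isClosed_topologicalClosure
  have hne : W.topologicalClosure.mkQ z ≠ 0 := by
    intro h0
    rw [Submodule.mkQ_apply, Submodule.Quotient.mk_eq_zero] at h0
    exact hz h0
  obtain ⟨g, hg⟩ := SeparatingDual.exists_ne_zero (R := ℂ) hne
  apply hg
  have := h (g ∘L W.topologicalClosure.mkQL) (by
    intro w hw
    have : W.topologicalClosure.mkQ w = 0 := by
      rw [Submodule.mkQ_apply, Submodule.Quotient.mk_eq_zero]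
      exact W.le_topologicalClosure hw
    simp only [ContinuousLinearMap.comp_apply, Submodule.mkQL_apply, this, map_zero])
  simpa only [ContinuousLinearMap.comp_apply, Submodule.mkQL_apply] using this

/-- a vector which almost attains the norm up to the factor 2 -/
theorem exists_half {X : Type} [NormedAddCommGroup X] [NormedSpace ℂ X] (f : X →L[ℂ] ℂ) :
    ∃ (y : X) (r : ℝ), ‖y‖ ≤ 1 ∧ f y = (r : ℂ) ∧ 0 ≤ r ∧ ‖f‖ ≤ 2 * r := by
  rcases eq_or_ne ‖f‖ 0 with h0 | h0
  · exact ⟨0, 0, by simp, by simp, le_refl _, by simp [h0]⟩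
  · have hpos : 0 < ‖f‖ := lt_of_le_of_ne (norm_nonneg _) (Ne.symm h0)
    obtain ⟨x, hx, hfx⟩ := f.exists_lt_apply_of_lt_opNorm (show ‖f‖ / 2 < ‖f‖ by linarith)
    have hp : 0 < ‖f x‖ := lt_trans (by linarith) hfx
    have hne : (‖f x‖ : ℂ) ≠ 0 := by exact_mod_cast hp.ne'
    refine ⟨((starRingEnd ℂ) (f x) / (‖f x‖ : ℂ)) • x, ‖f x‖, ?_, ?_, hp.le, by linarith⟩
    · rw [norm_smul, norm_div, RCLike.norm_conj, Complex.norm_real, norm_norm, div_self hp.ne',
        one_mul]
      exact hx.le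
    · rw [map_smul, smul_eq_mul, div_mul_eq_mul_div, div_eq_iff hne]
      rw [mul_comm, Complex.mul_conj, Complex.normSq_eq_norm_sq]
      push_cast
      ring

section

variable {X : Type} [NormedAddCommGroup X] [NormedSpace ℂ X]

/-- null sequences as elements of `lp` -/
def toLp (b : ℕ → X) (hb : Tendsto b atTop (𝓝 0)) : lp (fun _ : ℕ => X) ⊤ :=
  ⟨b, by
    apply memℓp_infty
    exact hb.norm.bddAbove_range⟩

theorem toLp_apply (b : ℕ → X) (hb : Tendsto b atTop (𝓝 0)) (n : ℕ) : toLp b hb n = b n := rfl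

/-- the coordinate functionals of a functional on `lp` -/
def coord (ψ : lp (fun _ : ℕ => X) ⊤ →L[ℂ] ℂ) (n : ℕ) : X →L[ℂ] ℂ :=
  LinearMap.mkContinuous
    ((ψ : lp (fun _ : ℕ => X) ⊤ →ₗ[ℂ] ℂ) ∘ₗ (lp.lsingle (𝕜 := ℂ) (E := fun _ : ℕ => X) ⊤ n))
    ‖ψ‖ (by
      intro y
      refine (ψ.le_opNorm _).trans ?_
      have : ‖(lp.lsingle (𝕜 := ℂ) (E := fun _ : ℕ => X) ⊤ n) y‖ = ‖y‖ :=
        lp.norm_single (E := fun _ : ℕ => X) (p := ⊤) ENNReal.zero_lt_top n y
      rw [this])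

theorem coord_apply (ψ : lp (fun _ : ℕ => X) ⊤ →L[ℂ] ℂ) (n : ℕ) (y : X) :
    coord ψ n y = ψ (lp.single ⊤ n y) := rfl

theorem sum_coord (ψ : lp (fun _ : ℕ => X) ⊤ →L[ℂ] ℂ) : Summable (fun n => ‖coord ψ n‖) := by
  choose y r hy hr h0 hle using fun n => exists_half (coord ψ n)
  apply summable_of_sum_le (c := 2 * ‖ψ‖) (fun n => norm_nonneg _)
  intro s
  have h1 : ∑ n ∈ s, ‖coord ψ n‖ ≤ 2 * ∑ n ∈ s, r n := by
    rw [Finset.mul_sum]
    exact Finset.sum_le_sum fun n _ => hle n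
  have h2 : ((∑ n ∈ s, r n : ℝ) : ℂ) = ψ (∑ n ∈ s, lp.single ⊤ n (y n)) := by
    rw [map_sum, Complex.ofReal_sum]
    refine Finset.sum_congr rfl fun n _ => ?_
    rw [← hr n, coord_apply]
  have h3 : ‖∑ n ∈ s, lp.single (E := fun _ : ℕ => X) ⊤ n (y n)‖ ≤ 1 := by
    apply lp.norm_le_of_forall_le zero_le_one
    intro i
    rw [lp.coeFn_sum, Finset.sum_apply]
    by_cases hi : i ∈ s
    · rw [Finset.sum_eq_single i]
      · rw [lp.single_apply_self]
        exact hy i
      · intro j _ hj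
        exact lp.single_apply_ne _ _ _ (Ne.symm hj)
      · intro h
        exact absurd hi h
    · rw [Finset.sum_eq_zero]
      · simp
      · intro j hj
        refine lp.single_apply_ne _ _ _ ?_
        rintro rfl
        exact hi hj
  have h4 : ∑ n ∈ s, r n ≤ ‖ψ‖ := by
    have h5 : ‖((∑ n ∈ s, r n : ℝ) : ℂ)‖ ≤ ‖ψ‖ := by
      rw [h2]
      refine (ψ.le_opNorm _).trans ?_
      calc ‖ψ‖ * _ ≤ ‖ψ‖ * 1 := mul_le_mul_of_nonneg_left h3 (norm_nonneg _)
        _ = ‖ψ‖ := mul_one _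
    rw [Complex.norm_real] at h5
    exact (le_abs_self _).trans h5
  linarith

theorem hasSum_coord (ψ : lp (fun _ : ℕ => X) ⊤ →L[ℂ] ℂ) (b : ℕ → X)
    (hb : Tendsto b atTop (𝓝 0)) :
    Tendsto (fun N => ∑ n ∈ Finset.range N, coord ψ n (b n)) atTop (𝓝 (ψ (toLp b hb))) := by
  have h1 : ∀ N, ∑ n ∈ Finset.range N, coord ψ n (b n)
      = ψ (∑ n ∈ Finset.range N, lp.single ⊤ n (b n)) := by
    intro N
    rw [map_sum]
    rfl
  simp_rw [h1]
  refine (ψ.continuous.tendsto _).comp ?_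
  rw [tendsto_iff_norm_sub_tendsto_zero]
  rw [Metric.tendsto_atTop]
  intro ε hε
  obtain ⟨N₀, hN₀⟩ := (Metric.tendsto_atTop.1 hb) (ε / 2) (by linarith)
  refine ⟨N₀, fun N hN => ?_⟩
  rw [Real.dist_eq, sub_zero, abs_of_nonneg (norm_nonneg _)]
  refine lt_of_le_of_lt (lp.norm_le_of_forall_le (by linarith : (0 : ℝ) ≤ ε / 2) ?_) (by linarith)
  intro i
  rw [lp.coeFn_sub, Pi.sub_apply, lp.coeFn_sum, Finset.sum_apply, toLp_apply]
  by_cases hi : i < N
  · rw [Finset.sum_eq_single i]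
    · rw [lp.single_apply_self, sub_self, norm_zero]
      linarith
    · intro j _ hj
      exact lp.single_apply_ne _ _ _ (Ne.symm hj)
    · intro h
      exact absurd (Finset.mem_range.2 hi) h
  · rw [Finset.sum_eq_zero]
    · rw [zero_sub, norm_neg]
      have := hN₀ i (by omega)
      rw [dist_zero_right] at this
      exact this.le
    · intro j hj
      refine lp.single_apply_ne _ _ _ ?_
      rintro rfl
      exact hi (Finset.mem_range.1 hj)

/-- the sequences `S z` with `S` of finite rank -/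
def finR (z : ℕ → X) : Submodule ℂ (lp (fun _ : ℕ => X) ⊤) where
  carrier := {w | ∃ S : X →L[ℂ] X, FiniteDimensional ℂ (LinearMap.range (S : X →ₗ[ℂ] X)) ∧
    ∀ n, w n = S (z n)}
  zero_mem' := by
    refine ⟨0, ?_, fun n => ?_⟩
    · have : LinearMap.range ((0 : X →L[ℂ] X) : X →ₗ[ℂ] X) = ⊥ := by
        rw [ContinuousLinearMap.coe_zero, LinearMap.range_zero]
      rw [this]
      infer_instance
    · simp
  add_mem' := by
    rintro a b ⟨S, hS, ha⟩ ⟨T, hT, hb⟩
    refine ⟨S + T, ?_, fun n => ?_⟩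
    · have : LinearMap.range ((S + T : X →L[ℂ] X) : X →ₗ[ℂ] X) ≤
          LinearMap.range (S : X →ₗ[ℂ] X) ⊔ LinearMap.range (T : X →ₗ[ℂ] X) := by
        rintro _ ⟨v, rfl⟩
        exact Submodule.add_mem_sup ⟨v, rfl⟩ ⟨v, rfl⟩
      exact Submodule.finiteDimensional_of_le this
    · rw [lp.coeFn_add, Pi.add_apply, ha, hb, ContinuousLinearMap.add_apply]
  smul_mem' := by
    rintro c a ⟨S, hS, ha⟩
    refine ⟨c • S, ?_, fun n => ?_⟩
    · have : LinearMap.range ((c • S : X →L[ℂ] X) : X →ₗ[ℂ] X) ≤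
          LinearMap.range (S : X →ₗ[ℂ] X) := by
        rintro _ ⟨v, rfl⟩
        exact Submodule.smul_mem _ c ⟨v, rfl⟩
      exact Submodule.finiteDimensional_of_le this
    · rw [lp.coeFn_smul, Pi.smul_apply, ha, ContinuousLinearMap.smul_apply]

theorem exists_bound_null (z : ℕ → X) (hz : Tendsto z atTop (𝓝 0)) :
    ∃ M : ℝ, 0 ≤ M ∧ ∀ n, ‖z n‖ ≤ M := by
  obtain ⟨M, hM⟩ := hz.norm.bddAbove_range
  exact ⟨M, (norm_nonneg _).trans (hM ⟨0, rfl⟩), fun n => hM ⟨n, rfl⟩⟩

/-- the null sequence is a limit of finite-rank images of itself -/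
theorem mem_closure_finR [CompleteSpace X]
    (hTr : ∀ (f : ℕ → X →L[ℂ] ℂ) (x : ℕ → X), Summable (fun i => ‖f i‖ * ‖x i‖) →
      (∀ v, ∑' i, f i v • x i = 0) → ∑' i, f i (x i) = 0)
    (z : ℕ → X) (hz : Tendsto z atTop (𝓝 0)) :
    toLp z hz ∈ closure (finR z : Set (lp (fun _ : ℕ => X) ⊤)) := by
  obtain ⟨M, hM0, hM⟩ := exists_bound_null z hz
  apply mem_closure_of_dual
  intro ψ hψ
  have hs : Summable (fun n => ‖coord ψ n‖ * ‖z n‖) :=
    Summable.of_nonneg_of_le (fun n => by positivity)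
      (fun n => mul_le_mul_of_nonneg_left (hM n) (norm_nonneg _)) ((sum_coord ψ).mul_right M)
  have hs1 : ∀ v, Summable (fun n => coord ψ n v • z n) := by
    intro v
    refine Summable.of_norm_bounded (hs.mul_left ‖v‖) fun n => ?_
    rw [norm_smul]
    have := (coord ψ n).le_opNorm v
    nlinarith [norm_nonneg (z n), norm_nonneg v, norm_nonneg (coord ψ n)]
  have hs2 : Summable (fun n => coord ψ n (z n)) :=
    Summable.of_norm_bounded hs fun n => (coord ψ n).le_opNorm _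
  have hz0 : ∑' n, coord ψ n (z n) = 0 := by
    apply hTr _ _ hs
    intro v
    by_contra hne
    obtain ⟨g, hg⟩ := SeparatingDual.exists_ne_zero (R := ℂ) hne
    apply hg
    rw [g.map_tsum (hs1 v)]
    have hb : Tendsto (fun n => g (z n) • v) atTop (𝓝 0) := by
      have h1 : Tendsto (fun n => g (z n)) atTop (𝓝 0) := by
        have := (g.continuous.tendsto 0).comp hz
        rwa [map_zero] at this
      have := h1.smul_const v
      rwa [zero_smul] at this
    have h1 := hasSum_coord ψ _ hb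
    have h2 : ψ (toLp _ hb) = 0 := by
      apply hψ
      refine ⟨g.smulRight v, ?_, fun n => rfl⟩
      have : LinearMap.range ((g.smulRight v : X →L[ℂ] X) : X →ₗ[ℂ] X) ≤
          Submodule.span ℂ {v} := by
        rintro _ ⟨w, rfl⟩
        exact Submodule.smul_mem _ _ (Submodule.mem_span_singleton_self v)
      exact Submodule.finiteDimensional_of_le this
    have h3 : Summable (fun n => g (coord ψ n v • z n)) := (hs1 v).mapL g
    have h4 := h3.hasSum.tendsto_sum_nat
    refine tendsto_nhds_unique h4 ?_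
    rw [h2] at h1
    refine h1.congr fun N => Finset.sum_congr rfl fun n _ => ?_
    rw [map_smul, map_smul, smul_eq_mul, smul_eq_mul, mul_comm]
  have h1 := hasSum_coord ψ z hz
  have h2 := hs2.hasSum.tendsto_sum_nat
  rw [hz0] at h2
  exact tendsto_nhds_unique h1 h2

end

/-- AP: the approximation property from the vanishing of traces -/
theorem ap (h1 : S_NS) : S_AP := by
  intro X _ _ _ hTr K hK ε hε
  obtain ⟨z, hz, ha⟩ := h1 X K hK
  have hcl := mem_closure_finR hTr z hz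
  rw [Metric.mem_closure_iff] at hcl
  obtain ⟨w, ⟨S, hS, hw⟩, hd⟩ := hcl (ε / 2) (by linarith)
  have hn : ∀ n, ‖S (z n) - z n‖ ≤ ε / 2 := by
    intro n
    have h2 : ‖(toLp z hz - w) n‖ ≤ ‖toLp z hz - w‖ := lp.norm_apply_le_norm (by simp) _ n
    rw [lp.coeFn_sub, Pi.sub_apply, toLp_apply, hw] at h2
    rw [norm_sub_rev]
    rw [dist_eq_norm] at hd
    linarith
  refine ⟨S, hS, fun x hx => ?_⟩
  obtain ⟨a, hsa, ha1, rfl⟩ := ha x hx
  obtain ⟨M, hM0, hM⟩ := exists_bound_null z hz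
  have hsz : Summable (fun n => a n • z n) := by
    refine Summable.of_norm_bounded (hsa.mul_right M) fun n => ?_
    rw [norm_smul]
    exact mul_le_mul_of_nonneg_left (hM n) (norm_nonneg _)
  have hsS : Summable (fun n => S (a n • z n)) := hsz.mapL S
  rw [S.map_tsum hsz, ← hsS.tsum_sub hsz]
  have hb : ∀ n, ‖S (a n • z n) - a n • z n‖ ≤ ‖a n‖ * (ε / 2) := by
    intro n
    rw [map_smul, ← smul_sub, norm_smul]
    exact mul_le_mul_of_nonneg_left (hn n) (norm_nonneg _)
  have h3 : ‖∑' n, (S (a n • z n) - a n • z n)‖ ≤ ∑' n, ‖a n‖ * (ε / 2) :=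
    tsum_of_norm_bounded (hsa.mul_right _).hasSum hb
  rw [tsum_mul_right] at h3
  nlinarith

end Pool.Agent.Helper46.LS
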