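import Pool.Agent.Helper25.LS.Defs

/-!
# Nuclear representations define compact operators (project LS, MP_03bcbb_an)
-/

set_option autoImplicit false

open Filter Topology Module

noncomputable section

namespace Pool.Agent.Helper46.LS

open Pool.Agent.Helper25.LS

/-- a rank one operator is compact -/
theorem isCompact_smulRight {X : Type} [NormedAddCommGroup X] [NormedSpace ℂ X]
    (f : X →L[ℂ] ℂ) (x : X) : IsCompactOperator (f.smulRight x : X →L[ℂ] X) := by
  have h1 : IsCompactOperator (f : X → ℂ) := isCompactOperator_of_locallyCompactSpace_dom f
  have h2 := h1.clm_comp ((ContinuousLinearMap.id ℂ ℂ).smulRight x)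
  have h3 : ((ContinuousLinearMap.id ℂ ℂ).smulRight x : ℂ → X) ∘ (f : X → ℂ)
      = (f.smulRight x : X → X) := by
    funext v
    rfl
  rwa [h3] at h2

/-- NU: nuclear representations define compact operators -/
theorem nu : S_NU := by
  intro X _ _ _ f x hs
  have hn : ∀ i, ‖(f i).smulRight (x i)‖ = ‖f i‖ * ‖x i‖ := fun i =>
    ContinuousLinearMap.norm_smulRight_apply (f i) (x i)
  have hs1 : Summable (fun i => ‖(f i).smulRight (x i)‖) := by
    simpa only [hn] using hs
  have hs2 : Summable (fun i => (f i).smulRight (x i)) := hs1.of_norm
  refine ⟨∑' i, (f i).smulRight (x i), ?_, ?_, ?_⟩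
  · intro v
    have := (ContinuousLinearMap.apply ℂ X v).map_tsum hs2
    simpa using this
  · have h := norm_tsum_le_tsum_norm hs1
    simpa only [hn] using h
  · refine isCompactOperator_of_tendsto hs2.hasSum.tendsto_sum_nat (Eventually.of_forall ?_)
    intro N
    have : ∀ s : Finset ℕ, IsCompactOperator
        ((∑ i ∈ s, (f i).smulRight (x i) : X →L[ℂ] X) : X → X) := by
      intro s
      classical
      induction s using Finset.induction_on with
      | empty =>
        rw [Finset.sum_empty]
        exact isCompactOperator_zero
      | insert a s ha ih =>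
        rw [Finset.sum_insert ha]
        exact (isCompact_smulRight (f a) (x a)).add ih
    exact this _

end Pool.Agent.Helper46.LS
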